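import Mathlib

/-!
# Both ends of the distribution of the number of sources of a random orientation of a tree

`p_j` is the number of orientations of a tree `G` (`n ≥ 3` vertices, independence number `α`) with
exactly `j` vertices of in-degree `0` (sources).  We show `p_j ≤ p_{j+1}` for `6 j ≤ n + 1` and
for `5 j + 3 ≤ 2 ℓ` (`ℓ` the number of leaves), and `p_{j+1} ≤ p_j` for `9 j + 3 ≥ n + 6 α`, for
`4 j + 2 ≥ n + 2 α` and for `2 j + 1 ≥ 2 n - ℓ`.

Outline.  All inequalities come from double counting, between the orientations with `j` and with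
`j + 1` sources, the pairs that differ by the reversal of one edge or of two adjacent edges.
* Going down from `s = j + 1` sources: the edge `v → y` from a source `v` to a vertex `y` with
  another in-neighbour is reversed (`P1`), or the path `v → y → t`, where `y` has only the
  in-neighbour `v` and `t` has another in-neighbour (`P2`).  For each source `v`, twice the number
  of moves `P1`, plus the number of moves `P2`, plus the number of vertices owned by `v`
  (reached from `v` by at most two steps through vertices of in-degree one) is at least two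
  (`pointwise`), so `2 P1 + P2 ≥ 3 s - n`.  In the resulting orientation with `j` sources, the
  vertex `v` of the move has no source among its neighbours; there are at most `2 (α - j)` such
  vertices as `G` is bipartite (`W_card`), and `v` determines the move (`receive`).
* Going up from `j` sources: the edge `y → v` is reversed, where `y` is no source and `v` has
  in-degree one (`Q1`), or the edges `y → v`, `y → m` from a source `y` to two vertices of
  in-degree one (`R2`).  As the sum of the in-degrees is `n - 1`, there are at least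
  `n + 1 - 3 j` such moves (`up_bound`), and at most `3 j` moves lead to a given orientation with
  `j + 1` sources (`down_bound`).
* The bounds with the number of leaves: the same moves, restricted to leaves `v`, `m`
  (`leaf_up`, `leaf_down`, `leaf_send`, `leaf_receive`).
-/

set_option autoImplicit false
set_option linter.unusedSectionVars false

namespace Pool.Agent.Results.MP_80a94d_pr.BothEnds

open Finset

variable {V : Type} [Fintype V] [DecidableEq V]

/-- `D` is an orientation of `G`; `D u v = true` means that the edge `uv` is directed from `u`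
to `v` -/
def IsOrient (G : SimpleGraph V) (D : V → V → Bool) : Prop :=
  (∀ u v, D u v = true → G.Adj u v) ∧ ∀ u v, G.Adj u v → (D u v = true ↔ D v u = false)

/-- the set of vertices of in-degree `0` -/
def src (D : V → V → Bool) : Finset V := univ.filter fun v => ∀ u, D u v = false

open Classical in
/-- the orientations of `G` with exactly `j` vertices of in-degree `0` -/
noncomputable def lev (G : SimpleGraph V) (j : ℕ) : Finset (V → V → Bool) :=
  univ.filter fun D => IsOrient G D ∧ (src D).card = j

/-- `D` with the edge `xy` reversed -/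
def flip (D : V → V → Bool) (x y : V) : V → V → Bool := fun a b =>
  if (a = x ∧ b = y) ∨ (a = y ∧ b = x) then D b a else D a b

theorem mem_src (D : V → V → Bool) (v : V) : v ∈ src D ↔ ∀ u, D u v = false := by
  simp [src]

theorem flip_flip (D : V → V → Bool) (x y : V) : flip (flip D x y) x y = D := by
  funext a b
  unfold flip
  split_ifs <;> first | rfl | (exfalso; tauto)

theorem flip_inj (x y : V) : Function.Injective (fun D : V → V → Bool => flip D x y) :=
  fun D D' h => by
    have := congrArg (fun E => flip E x y) h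
    simpa only [flip_flip] using this

theorem orient_flip {G : SimpleGraph V} {D : V → V → Bool} (h : IsOrient G D) (x y : V) :
    IsOrient G (flip D x y) := by
  obtain ⟨h1, h2⟩ := h
  refine ⟨fun u v huv => ?_, fun u v huv => ?_⟩
  · unfold flip at huv
    split_ifs at huv
    · exact (h1 _ _ huv).symm
    · exact h1 _ _ huv
  · have h3 := h2 u v huv
    have h4 := h2 v u huv.symm
    unfold flip
    split_ifs <;> first | assumption | (exfalso; tauto)

/-- `p = (v, y)`: `v` is a source, `v → y`, and `y` has another in-neighbour -/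
def P1 (D : V → V → Bool) (p : V × V) : Prop :=
  (∀ u, D u p.1 = false) ∧ D p.1 p.2 = true ∧ ∃ u, u ≠ p.1 ∧ D u p.2 = true

/-- `p = (v, y)`: `y → v`, this is the only edge into `v`, and `y` is not a source -/
def Q1 (D : V → V → Bool) (p : V × V) : Prop :=
  D p.2 p.1 = true ∧ (∀ u, D u p.1 = true → u = p.2) ∧ ∃ u, D u p.2 = true

/-- `p = (v, y, t)`: `v` is a source, `v → y → t`, `v → y` is the only edge into `y`, `t` has
another in-neighbour -/
def P2 (D : V → V → Bool) (p : V × V × V) : Prop :=
  (∀ u, D u p.1 = false) ∧ D p.1 p.2.1 = true ∧ (∀ u, D u p.2.1 = true → u = p.1) ∧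
    D p.2.1 p.2.2 = true ∧ ∃ u, u ≠ p.2.1 ∧ D u p.2.2 = true

/-- `p = (v, y, t)`: `t → y → v`, these are the only edges into `y` and `v`, `t` is not a source -/
def Q2 (D : V → V → Bool) (p : V × V × V) : Prop :=
  D p.2.2 p.2.1 = true ∧ D p.2.1 p.1 = true ∧ (∀ u, D u p.2.1 = true → u = p.2.2) ∧
    (∀ u, D u p.1 = true → u = p.2.1) ∧ ∃ u, D u p.2.2 = true

open Classical in
theorem double_count {ι α : Type} [Fintype ι] (A B : Finset α) (P Q : α → ι → Prop)
    (φ : ι → α → α) (h : ∀ D ∈ A, ∀ p, P D p → φ p D ∈ B ∧ Q (φ p D) p)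
    (hinj : ∀ p, Function.Injective (φ p)) :
    ∑ D ∈ A, (univ.filter (P D)).card ≤ ∑ D ∈ B, (univ.filter (Q D)).card := by
  simp only [Finset.card_filter]
  rw [Finset.sum_comm, Finset.sum_comm (s := B)]
  apply Finset.sum_le_sum
  intro p _
  rw [← Finset.card_filter, ← Finset.card_filter]
  apply Finset.card_le_card_of_injOn (φ p)
  · intro D hD
    have hD' := Finset.mem_coe.1 hD
    rw [Finset.mem_filter] at hD'
    have := h D hD'.1 p hD'.2
    exact Finset.mem_coe.2 (Finset.mem_filter.2 this)
  · exact (hinj p).injOn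

theorem src_flip {G : SimpleGraph V} {D : V → V → Bool} (h : IsOrient G D) {v y : V}
    (hp : P1 D (v, y)) : src (flip D v y) = (src D).erase v ∧ Q1 (flip D v y) (v, y) := by
  obtain ⟨h1, h2, u, hu, h3⟩ := hp
  simp only at h1 h2 hu h3
  have hvy : v ≠ y := (h.1 _ _ h2).ne
  have hyy : D y y = false := by
    by_contra hc
    exact (h.1 y y (by simpa using hc)).ne rfl
  have huy : u ≠ y := (h.1 _ _ h3).ne
  refine ⟨?_, ?_, ?_, u, ?_⟩
  · ext x
    rw [Finset.mem_erase, mem_src, mem_src]
    constructor
    · intro hx
      have hxv : x ≠ v := by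
        rintro rfl
        have := hx y
        simp [flip, h2] at this
      refine ⟨hxv, fun w => ?_⟩
      have := hx w
      unfold flip at this
      split_ifs at this with hc
      · rcases hc with ⟨rfl, rfl⟩ | ⟨rfl, rfl⟩
        · have := hx u
          simp [flip, hu, huy, h3] at this
        · exact absurd rfl hxv
      · exact this
    · rintro ⟨hxv, hx⟩ w
      unfold flip
      split_ifs with hc
      · rcases hc with ⟨rfl, rfl⟩ | ⟨rfl, rfl⟩
        · rw [hx w] at h2; exact absurd h2 (by simp)
        · exact absurd rfl hxv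
      · exact hx w
  · simp [flip, h2]
  · intro w hw
    simp only [flip] at hw ⊢
    split_ifs at hw with hc
    · rcases hc with ⟨rfl, h4⟩ | ⟨h4, _⟩
      · exact absurd h4 hvy
      · exact h4
    · rw [h1 w] at hw; exact absurd hw (by simp)
  · simp [flip, hu, huy, h3]

theorem src_flip2 {G : SimpleGraph V} {D : V → V → Bool} (h : IsOrient G D) {v y t : V}
    (hp : P2 D (v, y, t)) : src (flip (flip D v y) y t) = (src D).erase v ∧
      Q2 (flip (flip D v y) y t) (v, y, t) := by
  obtain ⟨h1, h2, h3, h4, u, hu, h5⟩ := hp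
  simp only at h1 h2 h3 h4 hu h5
  have hvy : v ≠ y := (h.1 _ _ h2).ne
  have hyt : y ≠ t := (h.1 _ _ h4).ne
  have hvt : v ≠ t := by
    rintro rfl
    rw [h1 y] at h4; exact absurd h4 (by simp)
  have hut : u ≠ t := (h.1 _ _ h5).ne
  have hD : ∀ a b, flip (flip D v y) y t a b =
      if (a = v ∧ b = y) ∨ (a = y ∧ b = v) ∨ (a = y ∧ b = t) ∨ (a = t ∧ b = y) then D b a
      else D a b := by
    intro a b
    unfold flip
    split_ifs <;> first | rfl | (exfalso; grind)
  have ht : flip (flip D v y) y t u t = true := by
    rw [hD, if_neg (by grind)]; exact h5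
  have hyt' : flip (flip D v y) y t t y = true := by
    rw [hD, if_pos (by grind)]; exact h4
  have hvy' : flip (flip D v y) y t y v = true := by
    rw [hD, if_pos (by grind)]; exact h2
  refine ⟨?_, hyt', hvy', ?_, ?_, u, ht⟩
  · ext x
    rw [Finset.mem_erase, mem_src, mem_src]
    constructor
    · intro hx
      have hxv : x ≠ v := by
        rintro rfl
        rw [hx y] at hvy'; exact absurd hvy' (by simp)
      have hxy : x ≠ y := by
        rintro rfl
        rw [hx t] at hyt'; exact absurd hyt' (by simp)
      have hxt : x ≠ t := by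
        rintro rfl
        rw [hx u] at ht; exact absurd ht (by simp)
      refine ⟨hxv, fun w => ?_⟩
      have := hx w
      rwa [hD, if_neg (by grind)] at this
    · rintro ⟨hxv, hx⟩ w
      have hxy : x ≠ y := by
        rintro rfl
        rw [hx v] at h2; exact absurd h2 (by simp)
      have hxt : x ≠ t := by
        rintro rfl
        rw [hx u] at h5; exact absurd h5 (by simp)
      rw [hD, if_neg (by grind)]
      exact hx w
  · intro w hw
    simp only at hw ⊢
    rw [hD] at hw
    split_ifs at hw with hc
    · rcases hc with ⟨rfl, _⟩ | ⟨_, h6⟩ | ⟨_, h6⟩ | ⟨h6, _⟩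
      · have := (h.2 _ _ (h.1 _ _ h2)).1 h2
        rw [this] at hw; exact absurd hw (by simp)
      · exact absurd h6.symm hvy
      · exact absurd h6 hyt
      · exact h6
    · have := h3 w hw
      subst this
      exact absurd (Or.inl ⟨rfl, rfl⟩) hc
  · intro w hw
    simp only at hw ⊢
    rw [hD] at hw
    split_ifs at hw with hc
    · rcases hc with ⟨_, h6⟩ | ⟨h6, _⟩ | ⟨h6, _⟩ | ⟨_, h6⟩
      · exact absurd h6 hvy
      · exact h6
      · exact h6
      · exact absurd h6 hvy
    · rw [h1 w] at hw; exact absurd hw (by simp)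

/-- `x` is reached from the source `v` by a path of length at most two whose vertices other than
`v` have in-degree one -/
def Own (D : V → V → Bool) (v x : V) : Prop :=
  (D v x = true ∧ ∀ u, D u x = true → u = v) ∨
    ∃ y, D v y = true ∧ (∀ u, D u y = true → u = v) ∧ D y x = true ∧ ∀ u, D u x = true → u = y

theorem own_unique {D : V → V → Bool} {v v' x : V} (hv : ∀ u, D u v = false)
    (hv' : ∀ u, D u v' = false) (h : Own D v x) (h' : Own D v' x) : v = v' := by
  rcases h with ⟨h1, h2⟩ | ⟨y, h1, h2, h3, h4⟩ <;> rcases h' with ⟨h1', h2'⟩ | ⟨y', h1', h2', h3', h4'⟩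
  · exact h2' _ h1
  · have := h2 _ h3'
    subst this
    rw [hv v'] at h1'; exact absurd h1' (by simp)
  · have := h2' _ h3
    subst this
    rw [hv' v] at h1; exact absurd h1 (by simp)
  · have := h4 _ h3'
    subst this
    exact h2' _ h1

open Classical in
theorem own_sum (D : V → V → Bool) :
    ∑ v ∈ src D, (univ.filter (fun x => Own D v x)).card + (src D).card ≤ Fintype.card V := by
  simp only [Finset.card_filter]
  rw [Finset.sum_comm]
  simp only [← Finset.card_filter]
  have h : ∀ x ∈ (univ : Finset V), ((src D).filter (fun v => Own D v x)).card ≤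
      if x ∉ src D then 1 else 0 := by
    intro x _
    by_cases hx : x ∈ src D
    · rw [if_neg (by simpa using hx)]
      rw [mem_src] at hx
      rw [Nat.le_zero, Finset.card_eq_zero, Finset.filter_eq_empty_iff]
      rintro v _ (⟨h1, _⟩ | ⟨y, _, _, h1, _⟩)
      · rw [hx v] at h1; exact absurd h1 (by simp)
      · rw [hx y] at h1; exact absurd h1 (by simp)
    · rw [if_pos hx, Finset.card_le_one]
      intro a ha b hb
      rw [Finset.mem_filter, mem_src] at ha hb
      exact own_unique ha.1 hb.1 ha.2 hb.2
  have h2 := Finset.sum_le_sum h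
  rw [← Finset.card_filter] at h2
  have h3 : (univ.filter (fun x => x ∉ src D)).card + (src D).card = Fintype.card V := by
    have : univ.filter (fun x => x ∉ src D) = (src D)ᶜ := by
      ext x; simp
    rw [this, Finset.card_compl]
    have := Finset.card_le_univ (src D)
    omega
  omega

theorem closed_univ {G : SimpleGraph V} (hG : G.Connected) (S : Set V) {v : V} (hv : v ∈ S)
    (h : ∀ a b, a ∈ S → G.Adj a b → b ∈ S) (w : V) : w ∈ S := by
  obtain ⟨p⟩ := hG.preconnected v w
  induction p with
  | nil => exact hv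
  | cons hadj p ih => exact ih (h _ _ hv hadj)

open Classical in
theorem pointwise {G : SimpleGraph V} (hG : G.Connected) (hn : 3 ≤ Fintype.card V)
    {D : V → V → Bool} (h : IsOrient G D) {v : V} (hv : v ∈ src D) :
    1 ≤ (univ.filter (fun y => P1 D (v, y))).card + (univ.filter (fun x => Own D v x)).card ∧
    2 ≤ 2 * (univ.filter (fun y => P1 D (v, y))).card +
      (univ.filter (fun q : V × V => P2 D (v, q))).card +
      (univ.filter (fun x => Own D v x)).card := by
  rw [mem_src] at hv
  by_cases h1 : ∃ y, P1 D (v, y)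
  · obtain ⟨y, hy⟩ := h1
    have : 0 < (univ.filter (fun y => P1 D (v, y))).card :=
      Finset.card_pos.2 ⟨y, by simpa using hy⟩
    constructor <;> omega
  have h1' : ∀ y, D v y = true → ∀ u, D u y = true → u = v := by
    intro y hy u hu
    by_contra hc
    exact h1 ⟨y, hv, hy, u, hc, hu⟩
  have hadj : ∀ w, G.Adj v w → D v w = true := fun w hw => (h.2 v w hw).2 (hv w)
  have hex : ∃ y, G.Adj v y := by
    by_contra hc
    push Not at hc
    have h2 := closed_univ hG {v} (Set.mem_singleton v)
      (by rintro a b rfl hab; exact absurd hab (hc b))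
    have h3 : Fintype.card V ≤ 1 := Fintype.card_le_one_iff.2 (fun a b => by
      rw [h2 a, h2 b])
    omega
  obtain ⟨y, hy⟩ := hex
  have hy' := hadj y hy
  have hown : Own D v y := Or.inl ⟨hy', h1' y hy'⟩
  have hc1 : 0 < (univ.filter (fun x => Own D v x)).card :=
    Finset.card_pos.2 ⟨y, by simpa using hown⟩
  refine ⟨by omega, ?_⟩
  by_cases h2 : ∃ q : V × V, P2 D (v, q)
  · obtain ⟨q, hq⟩ := h2
    have : 0 < (univ.filter (fun q : V × V => P2 D (v, q))).card :=
      Finset.card_pos.2 ⟨q, by simpa using hq⟩
    omega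
  have h2' : ∀ y t, D v y = true → D y t = true → ∀ u, D u t = true → u = y := by
    intro y t hy ht u hu
    by_contra hc
    exact h2 ⟨(y, t), hv, hy, h1' y hy, ht, u, hc, hu⟩
  by_contra hlt
  have hle : (univ.filter (fun x => Own D v x)).card ≤ 1 := by omega
  rw [Finset.card_le_one] at hle
  have huniq : ∀ x, Own D v x → x = y := fun x hx =>
    hle x (by simpa using hx) y (by simpa using hown)
  have h3 := closed_univ hG {v, y} (Set.mem_insert v _) (by
    intro a b ha hab
    rcases ha with rfl | ha
    · right
      exact huniq b (Or.inl ⟨hadj b hab, h1' b (hadj b hab)⟩)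
    · rw [Set.mem_singleton_iff] at ha
      subst ha
      left
      by_cases hab' : D b a = true
      · exact h1' a hy' b hab'
      · have h4 : D a b = true := (h.2 a b hab).2 (by simpa using hab')
        have h5 := huniq b (Or.inr ⟨a, hy', h1' a hy', h4, h2' a b hy' h4⟩)
        subst h5
        exact absurd rfl hab.ne)
  have h4 : (univ : Finset V) ⊆ {v, y} := by
    intro w _
    have := h3 w
    simpa using this
  have h5 := Finset.card_le_card h4
  have h6 : ({v, y} : Finset V).card ≤ 2 := Finset.card_le_two
  rw [Finset.card_univ] at h5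
  omega

open Classical in
theorem send {G : SimpleGraph V} (hG : G.Connected) (hn : 3 ≤ Fintype.card V)
    {D : V → V → Bool} (h : IsOrient G D) :
    2 * (src D).card ≤ (univ.filter (P1 D)).card + Fintype.card V ∧
    3 * (src D).card ≤ 2 * (univ.filter (P1 D)).card + (univ.filter (P2 D)).card +
      Fintype.card V := by
  have h1 : ∑ v ∈ src D, (univ.filter (fun y => P1 D (v, y))).card ≤
      (univ.filter (P1 D)).card := by
    rw [Finset.card_filter (P1 D), Fintype.sum_prod_type]
    simp only [← Finset.card_filter]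
    exact Finset.sum_le_sum_of_subset (Finset.subset_univ _)
  have h2 : ∑ v ∈ src D, (univ.filter (fun q : V × V => P2 D (v, q))).card ≤
      (univ.filter (P2 D)).card := by
    rw [Finset.card_filter (P2 D), Fintype.sum_prod_type]
    simp only [← Finset.card_filter]
    exact Finset.sum_le_sum_of_subset (Finset.subset_univ _)
  have h3 := own_sum D
  have h4 := Finset.sum_le_sum (fun v (hv : v ∈ src D) => (pointwise hG hn h hv).1)
  have h5 := Finset.sum_le_sum (fun v (hv : v ∈ src D) => (pointwise hG hn h hv).2)
  rw [Finset.sum_add_distrib, Finset.sum_const, smul_eq_mul] at h4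
  rw [Finset.sum_add_distrib, Finset.sum_add_distrib, ← Finset.mul_sum, Finset.sum_const,
    smul_eq_mul] at h5
  constructor <;> omega

/-- the vertices of positive in-degree without a neighbour among the sources -/
def Wset (G : SimpleGraph V) (D : V → V → Bool) : Set V :=
  {x | (∃ u, D u x = true) ∧ ∀ u ∈ src D, ¬ G.Adj u x}

open Classical in
theorem W_card {G : SimpleGraph V} (hG : G.Colorable 2) {D : V → V → Bool}
    (h : IsOrient G D) :
    2 * (src D).card + (univ.filter (fun x => x ∈ Wset G D)).card ≤ 2 * G.indepNum := by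
  obtain ⟨C⟩ := hG
  have key : ∀ c : Fin 2, (src D).card +
      ((univ.filter (fun x => x ∈ Wset G D)).filter (fun x => C x = c)).card ≤ G.indepNum := by
    intro c
    rw [← Finset.card_union_of_disjoint]
    · apply SimpleGraph.IsIndepSet.card_le_indepNum
      intro a ha b hb _ hab
      simp only [Finset.coe_union, Set.mem_union, Finset.mem_coe, Finset.mem_filter,
        Finset.mem_univ, true_and] at ha hb
      rcases ha with ha | ⟨⟨_, ha⟩, hca⟩ <;> rcases hb with hb | ⟨⟨_, hb⟩, hcb⟩
      · rw [mem_src] at ha hb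
        have := (h.2 a b hab).2 (ha b)
        rw [hb a] at this; exact absurd this (by simp)
      · exact hb a ha hab
      · exact ha b hb hab.symm
      · exact C.valid hab (hca.trans hcb.symm)
    · rw [Finset.disjoint_left]
      intro x hx hx'
      rw [mem_src] at hx
      obtain ⟨⟨u, hu⟩, _⟩ := (Finset.mem_filter.1 (Finset.mem_filter.1 hx').1).2
      rw [hx u] at hu; exact absurd hu (by simp)
  have h0 := key 0
  have h1 := key 1
  have h2 := Finset.card_filter_add_card_filter_not
    (s := univ.filter (fun x => x ∈ Wset G D)) (fun x => C x = 0)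
  have h3 : (univ.filter (fun x => x ∈ Wset G D)).filter (fun x => ¬ C x = 0) =
      (univ.filter (fun x => x ∈ Wset G D)).filter (fun x => C x = 1) := by
    apply Finset.filter_congr
    intro x _
    have : ∀ c : Fin 2, ¬ c = 0 ↔ c = 1 := by decide
    exact this _
  rw [h3] at h2
  omega

open Classical in
theorem receive {G : SimpleGraph V} (hG : G.Colorable 2) {D : V → V → Bool}
    (h : IsOrient G D) :
    (univ.filter (Q1 D)).card + 2 * (src D).card ≤ 2 * G.indepNum ∧
    (univ.filter (Q2 D)).card + 2 * (src D).card ≤ 2 * G.indepNum := by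
  have hW := W_card hG h
  have h1 : (univ.filter (Q1 D)).card ≤ (univ.filter (fun x => x ∈ Wset G D)).card := by
    apply Finset.card_le_card_of_injOn (fun p => p.1)
    · intro p hp
      have hp' := (Finset.mem_filter.1 (Finset.mem_coe.1 hp)).2
      obtain ⟨h1, h2, u, h3⟩ := hp'
      refine Finset.mem_coe.2 (Finset.mem_filter.2 ⟨Finset.mem_univ _, ⟨p.2, h1⟩, ?_⟩)
      intro w hw hadj
      rw [mem_src] at hw
      have := h2 w ((h.2 _ _ hadj).2 (hw _))
      subst this
      rw [hw u] at h3; exact absurd h3 (by simp)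
    · intro p hp q hq hpq
      have hp' := (Finset.mem_filter.1 (Finset.mem_coe.1 hp)).2
      have hq' := (Finset.mem_filter.1 (Finset.mem_coe.1 hq)).2
      obtain ⟨p1, p2⟩ := p
      obtain ⟨q1, q2⟩ := q
      simp only at hpq
      subst hpq
      have := hq'.2.1 _ hp'.1
      simp only at this
      rw [this]
  have h2 : (univ.filter (Q2 D)).card ≤ (univ.filter (fun x => x ∈ Wset G D)).card := by
    apply Finset.card_le_card_of_injOn (fun p => p.1)
    · intro p hp
      have hp' := (Finset.mem_filter.1 (Finset.mem_coe.1 hp)).2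
      obtain ⟨h0, h1, h3, h2, h4⟩ := hp'
      refine Finset.mem_coe.2 (Finset.mem_filter.2 ⟨Finset.mem_univ _, ⟨p.2.1, h1⟩, ?_⟩)
      intro w hw hadj
      rw [mem_src] at hw
      have := h2 w ((h.2 _ _ hadj).2 (hw _))
      subst this
      rw [hw _] at h0; exact absurd h0 (by simp)
    · intro p hp q hq hpq
      have hp' := (Finset.mem_filter.1 (Finset.mem_coe.1 hp)).2
      have hq' := (Finset.mem_filter.1 (Finset.mem_coe.1 hq)).2
      obtain ⟨p1, p2, p3⟩ := p
      obtain ⟨q1, q2, q3⟩ := q
      simp only at hpq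
      subst hpq
      obtain ⟨a1, a2, a3, a4, _⟩ := hp'
      obtain ⟨b1, b2, b3, b4, _⟩ := hq'
      simp only at a1 a2 a3 a4 b1 b2 b3 b4
      have := b4 _ a2
      subst this
      have := b3 _ a1
      subst this
      rfl
  constructor <;> omega

theorem mem_lev {G : SimpleGraph V} {j : ℕ} {D : V → V → Bool} :
    D ∈ lev G j ↔ IsOrient G D ∧ (src D).card = j := by
  simp [lev]

open Classical in
theorem dc1 (G : SimpleGraph V) (j : ℕ) :
    ∑ D ∈ lev G (j + 1), (univ.filter (P1 D)).card ≤
      ∑ D ∈ lev G j, (univ.filter (Q1 D)).card := by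
  apply double_count _ _ _ _ (fun p D => flip D p.1 p.2)
  · rintro D hD ⟨v, y⟩ hp
    rw [mem_lev] at hD
    obtain ⟨h1, h2⟩ := src_flip hD.1 hp
    refine ⟨mem_lev.2 ⟨orient_flip hD.1 _ _, ?_⟩, h2⟩
    rw [h1, Finset.card_erase_of_mem ((mem_src _ _).2 hp.1), hD.2]
    rfl
  · exact fun p => flip_inj _ _

open Classical in
theorem dc2 (G : SimpleGraph V) (j : ℕ) :
    ∑ D ∈ lev G (j + 1), (univ.filter (P2 D)).card ≤
      ∑ D ∈ lev G j, (univ.filter (Q2 D)).card := by
  apply double_count _ _ _ _ (fun p D => flip (flip D p.1 p.2.1) p.2.1 p.2.2)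
  · rintro D hD ⟨v, y, t⟩ hp
    rw [mem_lev] at hD
    obtain ⟨h1, h2⟩ := src_flip2 hD.1 hp
    refine ⟨mem_lev.2 ⟨orient_flip (orient_flip hD.1 _ _) _ _, ?_⟩, h2⟩
    rw [h1, Finset.card_erase_of_mem ((mem_src _ _).2 hp.1), hD.2]
    rfl
  · exact fun p => (flip_inj _ _).comp (flip_inj _ _)

theorem ineq1 {G : SimpleGraph V} (hG : G.Connected) (hB : G.Colorable 2)
    (hn : 3 ≤ Fintype.card V) (j : ℕ) :
    2 * (j + 1) * (lev G (j + 1)).card + 2 * j * (lev G j).card ≤
      Fintype.card V * (lev G (j + 1)).card + 2 * G.indepNum * (lev G j).card := by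
  classical
  have h1 := Finset.sum_le_sum (s := lev G (j + 1)) (fun D hD =>
    (send hG hn (mem_lev.1 hD).1).1)
  have h2 := Finset.sum_le_sum (s := lev G j) (fun D hD =>
    (receive hB (mem_lev.1 hD).1).1)
  have h3 := dc1 G j
  have e1 : ∑ D ∈ lev G (j + 1), 2 * (src D).card = (lev G (j + 1)).card * (2 * (j + 1)) := by
    rw [Finset.sum_congr rfl (fun D hD => by rw [(mem_lev.1 hD).2]), Finset.sum_const,
      smul_eq_mul]
  have e2 : ∑ D ∈ lev G j, 2 * (src D).card = (lev G j).card * (2 * j) := by
    rw [Finset.sum_congr rfl (fun D hD => by rw [(mem_lev.1 hD).2]), Finset.sum_const,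
      smul_eq_mul]
  rw [e1, Finset.sum_add_distrib, Finset.sum_const, smul_eq_mul] at h1
  rw [Finset.sum_add_distrib, e2, Finset.sum_const, smul_eq_mul] at h2
  nlinarith

theorem ineq2 {G : SimpleGraph V} (hG : G.Connected) (hB : G.Colorable 2)
    (hn : 3 ≤ Fintype.card V) (j : ℕ) :
    3 * (j + 1) * (lev G (j + 1)).card + 6 * j * (lev G j).card ≤
      Fintype.card V * (lev G (j + 1)).card + 6 * G.indepNum * (lev G j).card := by
  classical
  have h1 := Finset.sum_le_sum (s := lev G (j + 1)) (fun D hD =>
    (send hG hn (mem_lev.1 hD).1).2)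
  have h2 := Finset.sum_le_sum (s := lev G j) (fun D hD =>
    (receive hB (mem_lev.1 hD).1).1)
  have h2' := Finset.sum_le_sum (s := lev G j) (fun D hD =>
    (receive hB (mem_lev.1 hD).1).2)
  have h3 := dc1 G j
  have h4 := dc2 G j
  have e1 : ∑ D ∈ lev G (j + 1), 3 * (src D).card = (lev G (j + 1)).card * (3 * (j + 1)) := by
    rw [Finset.sum_congr rfl (fun D hD => by rw [(mem_lev.1 hD).2]), Finset.sum_const,
      smul_eq_mul]
  have e2 : ∑ D ∈ lev G j, 2 * (src D).card = (lev G j).card * (2 * j) := by
    rw [Finset.sum_congr rfl (fun D hD => by rw [(mem_lev.1 hD).2]), Finset.sum_const,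
      smul_eq_mul]
  rw [e1, Finset.sum_add_distrib, Finset.sum_add_distrib, Finset.sum_const, smul_eq_mul,
    ← Finset.mul_sum] at h1
  rw [Finset.sum_add_distrib, e2, Finset.sum_const, smul_eq_mul] at h2 h2'
  nlinarith

/-- the in-degree of `x` -/
def indeg (D : V → V → Bool) (x : V) : ℕ := (univ.filter (fun u => D u x = true)).card

theorem sum_indeg {G : SimpleGraph V} (hG : G.IsTree) {D : V → V → Bool} (h : IsOrient G D) :
    ∑ x, indeg D x + 1 = Fintype.card V := by
  classical
  have hdeg : ∀ x, G.degree x = indeg D x + (univ.filter (fun u => D x u = true)).card := by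
    intro x
    unfold indeg
    rw [← SimpleGraph.card_neighborFinset_eq_degree, SimpleGraph.neighborFinset_eq_filter,
      ← Finset.card_union_of_disjoint]
    · congr 1
      ext u
      simp only [Finset.mem_filter, Finset.mem_univ, true_and, Finset.mem_union]
      constructor
      · intro hu
        by_cases h1 : D x u = true
        · exact Or.inr h1
        · exact Or.inl ((h.2 u x hu.symm).2 (by simpa using h1))
      · rintro (h1 | h1)
        · exact (h.1 _ _ h1).symm
        · exact h.1 _ _ h1
    · rw [Finset.disjoint_left]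
      intro u hu hu'
      have h1 := (Finset.mem_filter.1 hu).2
      have h2 := (Finset.mem_filter.1 hu').2
      rw [(h.2 _ _ (h.1 _ _ h1)).1 h1] at h2
      exact absurd h2 (by simp)
  have h1 := G.sum_degrees_eq_twice_card_edges
  have h2 := hG.card_edgeFinset
  have h3 : ∑ x, (univ.filter (fun u => D x u = true)).card = ∑ x, indeg D x := by
    unfold indeg
    simp only [Finset.card_filter]
    rw [Finset.sum_comm]
  rw [Finset.sum_congr rfl (fun x _ => hdeg x), Finset.sum_add_distrib, h3] at h1
  omega

/-- `p = (y, v, m)`: `y` is a source, and the edges `y → v`, `y → m` (`v ≠ m`) are the only edges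
into `v` and `m` -/
def R2 (D : V → V → Bool) (p : V × V × V) : Prop :=
  (∀ u, D u p.1 = false) ∧ (D p.1 p.2.1 = true ∧ ∀ u, D u p.2.1 = true → u = p.1) ∧
    (D p.1 p.2.2 = true ∧ ∀ u, D u p.2.2 = true → u = p.1) ∧ p.2.1 ≠ p.2.2

/-- `p = (y, v, m)`: `v ≠ m` are sources, and `v → y`, `m → y` are the only edges into `y` -/
def S2 (D : V → V → Bool) (p : V × V × V) : Prop :=
  (∀ u, D u p.2.1 = false) ∧ (∀ u, D u p.2.2 = false) ∧ p.2.1 ≠ p.2.2 ∧
    D p.2.1 p.1 = true ∧ D p.2.2 p.1 = true ∧ ∀ u, D u p.1 = true → u = p.2.1 ∨ u = p.2.2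

theorem src_up {G : SimpleGraph V} {D : V → V → Bool} (h : IsOrient G D) {v y : V}
    (hp : Q1 D (v, y)) : (src (flip D v y)).card = (src D).card + 1 ∧
      P1 (flip D v y) (v, y) := by
  obtain ⟨h1, h2, u, h3⟩ := hp
  simp only at h1 h2 h3
  have hvy : v ≠ y := (h.1 _ _ h1).ne.symm
  have huy : u ≠ y := (h.1 _ _ h3).ne
  have hyv : D v y = false := (h.2 _ _ (h.1 _ _ h1)).1 h1
  have huv : u ≠ v := by
    rintro rfl
    rw [hyv] at h3; exact absurd h3 (by simp)
  have hD : ∀ a b, flip D v y a b =
      if (a = v ∧ b = y) ∨ (a = y ∧ b = v) then D b a else D a b := fun a b => rfl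
  have hs : ∀ w, flip D v y w v = false := by
    intro w
    rw [hD]
    split_ifs with hc
    · rcases hc with ⟨_, h6⟩ | ⟨h6, _⟩
      · exact absurd h6 hvy
      · rw [h6]; exact hyv
    · by_contra h4
      have := h2 w (by simpa using h4)
      exact hc (Or.inr ⟨this, rfl⟩)
  have hu' : flip D v y u y = true := by
    rw [hD, if_neg (by grind)]; exact h3
  refine ⟨?_, hs, ?_, u, huv, hu'⟩
  · have : src (flip D v y) = insert v (src D) := by
      ext x
      rw [Finset.mem_insert, mem_src, mem_src]
      constructor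
      · intro hx
        by_cases hxv : x = v
        · exact Or.inl hxv
        · right
          have hxy : x ≠ y := by
            rintro rfl
            rw [hx u] at hu'; exact absurd hu' (by simp)
          intro w
          have := hx w
          rwa [hD, if_neg (by grind)] at this
      · rintro (rfl | hx)
        · exact hs
        · have hxv : x ≠ v := by
            rintro rfl
            rw [hx y] at h1; exact absurd h1 (by simp)
          have hxy : x ≠ y := by
            rintro rfl
            rw [hx u] at h3; exact absurd h3 (by simp)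
          intro w
          rw [hD, if_neg (by grind)]
          exact hx w
    rw [this, Finset.card_insert_of_notMem]
    rw [mem_src]
    intro hc
    rw [hc y] at h1; exact absurd h1 (by simp)
  · simp only
    rw [hD, if_pos (Or.inl ⟨rfl, rfl⟩)]
    exact h1

theorem src_up2 {G : SimpleGraph V} {D : V → V → Bool} (h : IsOrient G D) {y v m : V}
    (hp : R2 D (y, v, m)) : (src (flip (flip D v y) y m)).card = (src D).card + 1 ∧
      S2 (flip (flip D v y) y m) (y, v, m) := by
  obtain ⟨h1, ⟨h2, h3⟩, ⟨h4, h5⟩, hvm⟩ := hp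
  simp only at h1 h2 h3 h4 h5 hvm
  have hvy : y ≠ v := (h.1 _ _ h2).ne
  have hmy : y ≠ m := (h.1 _ _ h4).ne
  have hD : ∀ a b, flip (flip D v y) y m a b =
      if (a = v ∧ b = y) ∨ (a = y ∧ b = v) ∨ (a = y ∧ b = m) ∨ (a = m ∧ b = y) then D b a
      else D a b := by
    intro a b
    unfold flip
    split_ifs <;> first | rfl | (exfalso; grind)
  have hv : ∀ w, flip (flip D v y) y m w v = false := by
    intro w
    rw [hD]
    split_ifs with hc
    · rcases hc with ⟨_, h6⟩ | ⟨h6, _⟩ | ⟨_, h6⟩ | ⟨_, h6⟩
      · exact absurd h6.symm hvy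
      · rw [h6]; exact h1 v
      · exact absurd h6 hvm
      · exact absurd h6.symm hvy
    · by_contra h6
      have := h3 w (by simpa using h6)
      exact hc (Or.inr (Or.inl ⟨this, rfl⟩))
  have hm : ∀ w, flip (flip D v y) y m w m = false := by
    intro w
    rw [hD]
    split_ifs with hc
    · rcases hc with ⟨_, h6⟩ | ⟨_, h6⟩ | ⟨h6, _⟩ | ⟨_, h6⟩
      · exact absurd h6.symm hmy
      · exact absurd h6.symm hvm
      · rw [h6]; exact h1 m
      · exact absurd h6.symm hmy
    · by_contra h6
      have := h5 w (by simpa using h6)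
      exact hc (Or.inr (Or.inr (Or.inl ⟨this, rfl⟩)))
  have hvy' : flip (flip D v y) y m v y = true := by
    rw [hD, if_pos (by grind)]; exact h2
  have hmy' : flip (flip D v y) y m m y = true := by
    rw [hD, if_pos (by grind)]; exact h4
  refine ⟨?_, hv, hm, hvm, hvy', hmy', ?_⟩
  · have : src (flip (flip D v y) y m) = insert v (insert m ((src D).erase y)) := by
      ext x
      rw [Finset.mem_insert, Finset.mem_insert, Finset.mem_erase, mem_src, mem_src]
      constructor
      · intro hx
        by_cases hxv : x = v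
        · exact Or.inl hxv
        by_cases hxm : x = m
        · exact Or.inr (Or.inl hxm)
        right; right
        have hxy : x ≠ y := by
          rintro rfl
          rw [hx v] at hvy'; exact absurd hvy' (by simp)
        refine ⟨hxy, fun w => ?_⟩
        have := hx w
        rwa [hD, if_neg (by grind)] at this
      · rintro (rfl | rfl | ⟨hxy, hx⟩)
        · exact hv
        · exact hm
        · have hxv : x ≠ v := by
            rintro rfl
            rw [hx y] at h2; exact absurd h2 (by simp)
          have hxm : x ≠ m := by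
            rintro rfl
            rw [hx y] at h4; exact absurd h4 (by simp)
          intro w
          rw [hD, if_neg (by grind)]
          exact hx w
    have hysrc : y ∈ src D := (mem_src _ _).2 h1
    have hmn : m ∉ (src D).erase y := by
      rw [Finset.mem_erase, mem_src]
      rintro ⟨_, hc⟩
      rw [hc y] at h4; exact absurd h4 (by simp)
    have hvn : v ∉ insert m ((src D).erase y) := by
      rw [Finset.mem_insert, Finset.mem_erase, mem_src]
      rintro (hc | ⟨_, hc⟩)
      · exact hvm hc
      · rw [hc y] at h2; exact absurd h2 (by simp)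
    have hpos : 0 < (src D).card := Finset.card_pos.2 ⟨y, hysrc⟩
    rw [this, Finset.card_insert_of_notMem hvn, Finset.card_insert_of_notMem hmn,
      Finset.card_erase_of_mem hysrc]
    omega
  · intro w hw
    simp only at hw ⊢
    rw [hD] at hw
    split_ifs at hw with hc
    · rcases hc with ⟨h6, _⟩ | ⟨_, h6⟩ | ⟨_, h6⟩ | ⟨h6, _⟩
      · exact Or.inl h6
      · exact absurd h6 hvy
      · exact absurd h6 hmy
      · exact Or.inr h6
    · rw [h1 w] at hw; exact absurd hw (by simp)

open Classical in
theorem dc1' (G : SimpleGraph V) (j : ℕ) :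
    ∑ D ∈ lev G j, (univ.filter (Q1 D)).card ≤
      ∑ D ∈ lev G (j + 1), (univ.filter (P1 D)).card := by
  apply double_count _ _ _ _ (fun p D => flip D p.1 p.2)
  · rintro D hD ⟨v, y⟩ hp
    rw [mem_lev] at hD
    obtain ⟨h1, h2⟩ := src_up hD.1 hp
    exact ⟨mem_lev.2 ⟨orient_flip hD.1 _ _, by rw [h1, hD.2]⟩, h2⟩
  · exact fun p => flip_inj _ _

open Classical in
theorem dc3 (G : SimpleGraph V) (j : ℕ) :
    ∑ D ∈ lev G j, (univ.filter (R2 D)).card ≤
      ∑ D ∈ lev G (j + 1), (univ.filter (S2 D)).card := by
  apply double_count _ _ _ _ (fun p D => flip (flip D p.2.1 p.1) p.1 p.2.2)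
  · rintro D hD ⟨y, v, m⟩ hp
    rw [mem_lev] at hD
    obtain ⟨h1, h2⟩ := src_up2 hD.1 hp
    exact ⟨mem_lev.2 ⟨orient_flip (orient_flip hD.1 _ _) _ _, by rw [h1, hD.2]⟩, h2⟩
  · exact fun p => (flip_inj _ _).comp (flip_inj _ _)

/-- the vertices whose only in-neighbour is `y` -/
def Priv (D : V → V → Bool) (y : V) : Set V := {x | D y x = true ∧ ∀ u, D u x = true → u = y}

open Classical in
theorem up_bound {G : SimpleGraph V} (hG : G.IsTree) {D : V → V → Bool} (h : IsOrient G D) :
    2 * Fintype.card V + 2 ≤ 2 * (univ.filter (Q1 D)).card + (univ.filter (R2 D)).card +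
      6 * (src D).card := by
  have h1 : ∀ x ∈ (univ : Finset V), 2 ≤ 2 * (if x ∈ src D then 1 else 0) + indeg D x +
      (univ.filter (fun y => Q1 D (x, y))).card +
      ((src D).filter (fun y => x ∈ Priv D y)).card := by
    intro x _
    by_cases hx : x ∈ src D
    · rw [if_pos hx]; omega
    · rw [if_neg hx]
      have hx' : ∃ u, D u x = true := by
        by_contra hc
        push Not at hc
        exact hx ((mem_src _ _).2 (fun u => by simpa using hc u))
      obtain ⟨y, hy⟩ := hx'
      have hpos : 0 < indeg D x := Finset.card_pos.2 ⟨y, by simpa using hy⟩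
      by_cases h2 : 2 ≤ indeg D x
      · omega
      have h3 : indeg D x ≤ 1 := by omega
      unfold indeg at h3
      rw [Finset.card_le_one] at h3
      have huniq : ∀ u, D u x = true → u = y := fun u hu =>
        h3 u (by simpa using hu) y (by simpa using hy)
      by_cases hys : y ∈ src D
      · have : 0 < ((src D).filter (fun y => x ∈ Priv D y)).card :=
          Finset.card_pos.2 ⟨y, Finset.mem_filter.2 ⟨hys, hy, huniq⟩⟩
        omega
      · have hy' : ∃ u, D u y = true := by
          by_contra hc
          push Not at hc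
          exact hys ((mem_src _ _).2 (fun u => by simpa using hc u))
        have : 0 < (univ.filter (fun y => Q1 D (x, y))).card :=
          Finset.card_pos.2 ⟨y, Finset.mem_filter.2 ⟨Finset.mem_univ _, hy, huniq, hy'⟩⟩
        omega
  have h2 := Finset.sum_le_sum h1
  rw [Finset.sum_const, Finset.card_univ, smul_eq_mul, Finset.sum_add_distrib,
    Finset.sum_add_distrib, Finset.sum_add_distrib, ← Finset.mul_sum, ← Finset.card_filter] at h2
  have h3 : (univ.filter (fun x => x ∈ src D)).card = (src D).card := by
    congr 1; ext x; simp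
  have h4 : ∑ x, (univ.filter (fun y => Q1 D (x, y))).card = (univ.filter (Q1 D)).card := by
    rw [Finset.card_filter (Q1 D), Fintype.sum_prod_type]
    simp only [← Finset.card_filter]
  have h5 : ∑ x, ((src D).filter (fun y => x ∈ Priv D y)).card =
      ∑ y ∈ src D, (univ.filter (fun x => x ∈ Priv D y)).card := by
    simp only [Finset.card_filter]
    rw [Finset.sum_comm]
  have h6 : ∀ y ∈ src D, 2 * (univ.filter (fun x => x ∈ Priv D y)).card ≤
      (univ.filter (fun q : V × V => R2 D (y, q))).card + 2 := by
    intro y hy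
    have : (univ.filter (fun q : V × V => R2 D (y, q))) =
        (univ.filter (fun x => x ∈ Priv D y)).offDiag := by
      ext ⟨a, b⟩
      rw [Finset.mem_offDiag]
      simp only [Finset.mem_filter, Finset.mem_univ, true_and]
      rw [mem_src] at hy
      constructor
      · rintro ⟨_, h1, h2, h3⟩
        exact ⟨h1, h2, h3⟩
      · rintro ⟨h1, h2, h3⟩
        exact ⟨hy, h1, h2, h3⟩
    rw [this, Finset.offDiag_card]
    set r := (univ.filter (fun x => x ∈ Priv D y)).card
    rcases r with _ | _ | r
    · omega
    · omega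
    · have : (r + 1 + 1) * (r + 1 + 1) - (r + 1 + 1) = (r + 1 + 1) * (r + 1) := by
        rw [Nat.mul_succ]
        omega
      rw [this]
      nlinarith
  have h7 := Finset.sum_le_sum h6
  rw [← Finset.mul_sum, Finset.sum_add_distrib, Finset.sum_const, smul_eq_mul] at h7
  have h8 : ∑ y ∈ src D, (univ.filter (fun q : V × V => R2 D (y, q))).card ≤
      (univ.filter (R2 D)).card := by
    rw [Finset.card_filter (R2 D), Fintype.sum_prod_type]
    simp only [← Finset.card_filter]
    exact Finset.sum_le_sum_of_subset (Finset.subset_univ _)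
  have h9 := sum_indeg hG h
  rw [h3, h4, h5] at h2
  omega

open Classical in
theorem down_bound {G : SimpleGraph V} (hG : G.IsTree) {D : V → V → Bool} (h : IsOrient G D) :
    2 * (univ.filter (P1 D)).card + (univ.filter (S2 D)).card + 6 ≤ 6 * (src D).card := by
  have h1 : ∀ y ∈ (univ : Finset V), 2 * (univ.filter (fun v => P1 D (v, y))).card +
      (univ.filter (fun q : V × V => S2 D (y, q))).card + 6 ≤
      6 * indeg D y + 6 * (if y ∈ src D then 1 else 0) := by
    intro y _
    by_cases hy : y ∈ src D
    · rw [if_pos hy]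
      rw [mem_src] at hy
      have e1 : (univ.filter (fun v => P1 D (v, y))).card = 0 := by
        rw [Finset.card_eq_zero, Finset.filter_eq_empty_iff]
        rintro v _ ⟨_, h2, _⟩
        rw [hy v] at h2; exact absurd h2 (by simp)
      have e2 : (univ.filter (fun q : V × V => S2 D (y, q))).card = 0 := by
        rw [Finset.card_eq_zero, Finset.filter_eq_empty_iff]
        rintro ⟨v, m⟩ _ ⟨_, _, _, h2, _⟩
        rw [hy v] at h2; exact absurd h2 (by simp)
      omega
    · rw [if_neg hy]
      have hy' : ∃ u, D u y = true := by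
        by_contra hc
        push Not at hc
        exact hy ((mem_src _ _).2 (fun u => by simpa using hc u))
      obtain ⟨z, hz⟩ := hy'
      have hpos : 0 < indeg D y := Finset.card_pos.2 ⟨z, by simpa using hz⟩
      have e1 : (univ.filter (fun v => P1 D (v, y))).card ≤ indeg D y := by
        unfold indeg
        apply Finset.card_le_card
        intro v hv
        rw [Finset.mem_filter] at hv ⊢
        exact ⟨Finset.mem_univ _, hv.2.2.1⟩
      by_cases h2 : indeg D y ≤ 1
      · have e2 : (univ.filter (fun v => P1 D (v, y))).card = 0 := by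
          rw [Finset.card_eq_zero, Finset.filter_eq_empty_iff]
          rintro v _ ⟨_, h3, u, h4, h5⟩
          unfold indeg at h2
          rw [Finset.card_le_one] at h2
          exact h4 (h2 u (by simpa using h5) v (by simpa using h3))
        have e3 : (univ.filter (fun q : V × V => S2 D (y, q))).card = 0 := by
          rw [Finset.card_eq_zero, Finset.filter_eq_empty_iff]
          rintro ⟨v, m⟩ _ ⟨_, _, h3, h4, h5, _⟩
          unfold indeg at h2
          rw [Finset.card_le_one] at h2
          exact h3 (h2 v (by simpa using h4) m (by simpa using h5))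
        omega
      by_cases h3 : ∃ q : V × V, S2 D (y, q)
      · obtain ⟨⟨v, m⟩, hq⟩ := h3
        have e2 : (univ.filter (fun q : V × V => S2 D (y, q))) ⊆ {(v, m), (m, v)} := by
          rintro ⟨a, b⟩ hab
          rw [Finset.mem_filter] at hab
          obtain ⟨_, _, _, a1, a2, a3, a4⟩ := hab
          obtain ⟨_, _, b1, b2, b3, b4⟩ := hq
          simp only at a1 a2 a3 b1 b2 b3 b4
          have c1 := b4 a a2
          have c2 := b4 b a3
          simp only [Finset.mem_insert, Finset.mem_singleton, Prod.mk.injEq]
          grind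
        have e3 := Finset.card_le_card e2
        have e4 : ({(v, m), (m, v)} : Finset (V × V)).card ≤ 2 := Finset.card_le_two
        have e5 : indeg D y ≤ 2 := by
          unfold indeg
          have : (univ.filter (fun u => D u y = true)) ⊆ {v, m} := by
            intro u hu
            rw [Finset.mem_filter] at hu
            have := hq.2.2.2.2.2 u hu.2
            simpa using this
          exact (Finset.card_le_card this).trans Finset.card_le_two
        omega
      · have e2 : (univ.filter (fun q : V × V => S2 D (y, q))).card = 0 := by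
          rw [Finset.card_eq_zero, Finset.filter_eq_empty_iff]
          exact fun q _ hq => h3 ⟨q, hq⟩
        omega
  have h2 := Finset.sum_le_sum h1
  rw [Finset.sum_add_distrib, Finset.sum_add_distrib, Finset.sum_add_distrib, ← Finset.mul_sum,
    ← Finset.mul_sum, ← Finset.mul_sum, Finset.sum_const, smul_eq_mul, Finset.card_univ,
    ← Finset.card_filter] at h2
  have h3 : (univ.filter (fun x => x ∈ src D)).card = (src D).card := by
    congr 1; ext x; simp
  have h4 : ∑ y, (univ.filter (fun v => P1 D (v, y))).card = (univ.filter (P1 D)).card := by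
    rw [Finset.card_filter (P1 D), Fintype.sum_prod_type_right]
    simp only [← Finset.card_filter]
  have h5 : ∑ y, (univ.filter (fun q : V × V => S2 D (y, q))).card =
      (univ.filter (S2 D)).card := by
    rw [Finset.card_filter (S2 D), Fintype.sum_prod_type]
    simp only [← Finset.card_filter]
  have h9 := sum_indeg hG h
  rw [h3, h4, h5] at h2
  omega

theorem ineq3 {G : SimpleGraph V} (hG : G.IsTree) (j : ℕ) :
    (Fintype.card V + 1) * (lev G j).card ≤
      3 * j * (lev G j).card + 3 * j * (lev G (j + 1)).card := by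
  classical
  have h1 := Finset.sum_le_sum (s := lev G j) (fun D hD => up_bound hG (mem_lev.1 hD).1)
  have h2 := Finset.sum_le_sum (s := lev G (j + 1)) (fun D hD =>
    down_bound hG (mem_lev.1 hD).1)
  have h3 := dc1' G j
  have h4 := dc3 G j
  have e1 : ∑ D ∈ lev G j, 6 * (src D).card = (lev G j).card * (6 * j) := by
    rw [Finset.sum_congr rfl (fun D hD => by rw [(mem_lev.1 hD).2]), Finset.sum_const,
      smul_eq_mul]
  have e2 : ∑ D ∈ lev G (j + 1), 6 * (src D).card = (lev G (j + 1)).card * (6 * (j + 1)) := by
    rw [Finset.sum_congr rfl (fun D hD => by rw [(mem_lev.1 hD).2]), Finset.sum_const,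
      smul_eq_mul]
  simp only [Finset.sum_add_distrib, e1, Finset.sum_const, smul_eq_mul,
    ← Finset.mul_sum] at h1
  simp only [e2, Finset.sum_add_distrib, Finset.sum_const, smul_eq_mul,
    ← Finset.mul_sum] at h2
  nlinarith

theorem lev_empty {G : SimpleGraph V} (hB : G.Colorable 2) {j : ℕ} (hj : G.indepNum < j) :
    (lev G j).card = 0 := by
  rw [Finset.card_eq_zero, Finset.eq_empty_iff_forall_notMem]
  intro D hD
  have := (receive hB (mem_lev.1 hD).1).1
  rw [(mem_lev.1 hD).2] at this
  omega

theorem card_le_two_indep {G : SimpleGraph V} (hB : G.Colorable 2) :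
    Fintype.card V ≤ 2 * G.indepNum := by
  classical
  obtain ⟨C⟩ := hB
  have key : ∀ c : Fin 2, (univ.filter (fun x => C x = c)).card ≤ G.indepNum := by
    intro c
    apply SimpleGraph.IsIndepSet.card_le_indepNum
    intro a ha b hb _ hab
    simp only [Finset.coe_filter, Finset.mem_univ, true_and, Set.mem_ofPred_eq] at ha hb
    exact C.valid hab (ha.trans hb.symm)
  have h2 := Finset.card_filter_add_card_filter_not (s := (univ : Finset V)) (fun x => C x = 0)
  have h3 : univ.filter (fun x => ¬ C x = 0) = univ.filter (fun x => C x = 1) := by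
    apply Finset.filter_congr
    intro x _
    have : ∀ c : Fin 2, ¬ c = 0 ↔ c = 1 := by decide
    exact this _
  rw [h3, Finset.card_univ] at h2
  have := key 0
  have := key 1
  omega

/-- `x` is a leaf: it has exactly one neighbour -/
def IsLeaf (G : SimpleGraph V) (x : V) : Prop := ∃ y, ∀ u, G.Adj x u ↔ u = y

open Classical in
/-- the number of leaves -/
noncomputable def numLeaves (G : SimpleGraph V) : ℕ := (univ.filter fun x => IsLeaf G x).card

/-- a move `P1` of a leaf -/
def P1l (G : SimpleGraph V) (D : V → V → Bool) (p : V × V) : Prop := P1 D p ∧ IsLeaf G p.1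

/-- a move `Q1` of a leaf -/
def Q1l (G : SimpleGraph V) (D : V → V → Bool) (p : V × V) : Prop := Q1 D p ∧ IsLeaf G p.1

/-- a move `R2` of two leaves -/
def R2l (G : SimpleGraph V) (D : V → V → Bool) (p : V × V × V) : Prop :=
  R2 D p ∧ IsLeaf G p.2.1 ∧ IsLeaf G p.2.2

/-- a move `S2` of two leaves -/
def S2l (G : SimpleGraph V) (D : V → V → Bool) (p : V × V × V) : Prop :=
  S2 D p ∧ IsLeaf G p.2.1 ∧ IsLeaf G p.2.2

open Classical in
theorem dl1 (G : SimpleGraph V) (j : ℕ) :
    ∑ D ∈ lev G (j + 1), (univ.filter (P1l G D)).card ≤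
      ∑ D ∈ lev G j, (univ.filter (Q1l G D)).card := by
  apply double_count _ _ _ _ (fun p D => flip D p.1 p.2)
  · rintro D hD ⟨v, y⟩ ⟨hp, hl⟩
    rw [mem_lev] at hD
    obtain ⟨h1, h2⟩ := src_flip hD.1 hp
    refine ⟨mem_lev.2 ⟨orient_flip hD.1 _ _, ?_⟩, h2, hl⟩
    rw [h1, Finset.card_erase_of_mem ((mem_src _ _).2 hp.1), hD.2]
    rfl
  · exact fun p => flip_inj _ _

open Classical in
theorem dl2 (G : SimpleGraph V) (j : ℕ) :
    ∑ D ∈ lev G j, (univ.filter (Q1l G D)).card ≤
      ∑ D ∈ lev G (j + 1), (univ.filter (P1l G D)).card := by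
  apply double_count _ _ _ _ (fun p D => flip D p.1 p.2)
  · rintro D hD ⟨v, y⟩ ⟨hp, hl⟩
    rw [mem_lev] at hD
    obtain ⟨h1, h2⟩ := src_up hD.1 hp
    exact ⟨mem_lev.2 ⟨orient_flip hD.1 _ _, by rw [h1, hD.2]⟩, h2, hl⟩
  · exact fun p => flip_inj _ _

open Classical in
theorem dl3 (G : SimpleGraph V) (j : ℕ) :
    ∑ D ∈ lev G j, (univ.filter (R2l G D)).card ≤
      ∑ D ∈ lev G (j + 1), (univ.filter (S2l G D)).card := by
  apply double_count _ _ _ _ (fun p D => flip (flip D p.2.1 p.1) p.1 p.2.2)
  · rintro D hD ⟨y, v, m⟩ ⟨hp, hl⟩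
    rw [mem_lev] at hD
    obtain ⟨h1, h2⟩ := src_up2 hD.1 hp
    exact ⟨mem_lev.2 ⟨orient_flip (orient_flip hD.1 _ _) _ _, by rw [h1, hD.2]⟩, h2, hl⟩
  · exact fun p => (flip_inj _ _).comp (flip_inj _ _)

/-- two leaves are not adjacent if there are at least three vertices -/
theorem leaf_leaf {G : SimpleGraph V} (hG : G.Connected) (hn : 3 ≤ Fintype.card V) {x y : V}
    (hx : IsLeaf G x) (hy : IsLeaf G y) (h : G.Adj x y) : False := by
  obtain ⟨a, ha⟩ := hx
  obtain ⟨b, hb⟩ := hy
  have h1 := (ha y).1 h
  have h2 := (hb x).1 h.symm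
  subst h1
  subst h2
  have h3 := closed_univ hG {x, y} (Set.mem_insert x _) (by
    intro c d hc hcd
    rcases hc with rfl | hc
    · right; exact (ha d).1 hcd
    · rw [Set.mem_singleton_iff] at hc
      subst hc
      left; exact (hb d).1 hcd)
  have h4 : (univ : Finset V) ⊆ {x, y} := by
    intro w _
    have := h3 w
    simpa using this
  have h5 := Finset.card_le_card h4
  have h6 : ({x, y} : Finset V).card ≤ 2 := Finset.card_le_two
  rw [Finset.card_univ] at h5
  omega

open Classical in
theorem leaf_up {G : SimpleGraph V} (hG : G.Connected) (hn : 3 ≤ Fintype.card V)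
    {D : V → V → Bool} (h : IsOrient G D) :
    2 * numLeaves G ≤ 2 * (univ.filter (Q1l G D)).card + (univ.filter (R2l G D)).card +
      2 * (src D).card := by
  have h1 : ∀ x ∈ univ.filter (fun x => IsLeaf G x), 1 ≤ (if x ∈ src D then 1 else 0) +
      (univ.filter (fun y => Q1l G D (x, y))).card +
      ((src D).filter (fun y => x ∈ Priv D y)).card := by
    intro x hx
    have hl := (Finset.mem_filter.1 hx).2
    by_cases hxs : x ∈ src D
    · rw [if_pos hxs]; omega
    · rw [if_neg hxs]
      obtain ⟨y, hy⟩ := hl
      have hx' : ∃ u, D u x = true := by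
        by_contra hc
        push Not at hc
        exact hxs ((mem_src _ _).2 (fun u => by simpa using hc u))
      have huniq : ∀ u, D u x = true → u = y := fun u hu => (hy u).1 (h.1 _ _ hu).symm
      have hyx : D y x = true := by
        obtain ⟨u, hu⟩ := hx'
        have := huniq u hu
        rwa [this] at hu
      by_cases hys : y ∈ src D
      · have : 0 < ((src D).filter (fun y => x ∈ Priv D y)).card :=
          Finset.card_pos.2 ⟨y, Finset.mem_filter.2 ⟨hys, hyx, huniq⟩⟩
        omega
      · have hy' : ∃ u, D u y = true := by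
          by_contra hc
          push Not at hc
          exact hys ((mem_src _ _).2 (fun u => by simpa using hc u))
        have : 0 < (univ.filter (fun y => Q1l G D (x, y))).card :=
          Finset.card_pos.2 ⟨y, Finset.mem_filter.2 ⟨Finset.mem_univ _,
            ⟨hyx, huniq, hy'⟩, y, hy⟩⟩
        omega
  have h2 := Finset.sum_le_sum h1
  rw [Finset.sum_const, smul_eq_mul, Finset.sum_add_distrib,
    Finset.sum_add_distrib, ← Finset.card_filter] at h2
  have h3 : ((univ.filter (fun x => IsLeaf G x)).filter (fun x => x ∈ src D)).card =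
      ((src D).filter (fun x => IsLeaf G x)).card := by
    congr 1; ext x; simp [and_comm]
  have h4 : ∑ x ∈ univ.filter (fun x => IsLeaf G x), (univ.filter (fun y => Q1l G D (x, y))).card
      ≤ (univ.filter (Q1l G D)).card := by
    rw [Finset.card_filter (Q1l G D), Fintype.sum_prod_type]
    simp only [← Finset.card_filter]
    exact Finset.sum_le_sum_of_subset (Finset.subset_univ _)
  have h5 : ∑ x ∈ univ.filter (fun x => IsLeaf G x), ((src D).filter (fun y => x ∈ Priv D y)).card =
      ∑ y ∈ src D, ((univ.filter (fun x => IsLeaf G x)).filter (fun x => x ∈ Priv D y)).card := by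
    simp only [Finset.card_filter (s := src D), Finset.card_filter (s := univ.filter (fun x => IsLeaf G x))]
    rw [Finset.sum_comm]
  have h6 : ∀ y ∈ src D,
      2 * ((univ.filter (fun x => IsLeaf G x)).filter (fun x => x ∈ Priv D y)).card ≤
      (univ.filter (fun q : V × V => R2l G D (y, q))).card + 2 * (if ¬ IsLeaf G y then 1 else 0) := by
    intro y hy
    by_cases hyl : IsLeaf G y
    · have : ((univ.filter (fun x => IsLeaf G x)).filter (fun x => x ∈ Priv D y)).card = 0 := by
        rw [Finset.card_eq_zero, Finset.filter_eq_empty_iff]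
        rintro x hx ⟨hx1, _⟩
        exact leaf_leaf hG hn hyl (Finset.mem_filter.1 hx).2 (h.1 _ _ hx1)
      omega
    rw [if_pos hyl]
    have : (univ.filter (fun q : V × V => R2l G D (y, q))) =
        ((univ.filter (fun x => IsLeaf G x)).filter (fun x => x ∈ Priv D y)).offDiag := by
      ext ⟨a, b⟩
      rw [Finset.mem_offDiag]
      simp only [Finset.mem_filter, Finset.mem_univ, true_and]
      rw [mem_src] at hy
      constructor
      · rintro ⟨⟨_, h1, h2, h3⟩, h4, h5⟩
        exact ⟨⟨h4, h1⟩, ⟨h5, h2⟩, h3⟩
      · rintro ⟨⟨h4, h1⟩, ⟨h5, h2⟩, h3⟩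
        exact ⟨⟨hy, h1, h2, h3⟩, h4, h5⟩
    rw [this, Finset.offDiag_card]
    set r := ((univ.filter (fun x => IsLeaf G x)).filter (fun x => x ∈ Priv D y)).card
    rcases r with _ | _ | r
    · omega
    · omega
    · have : (r + 1 + 1) * (r + 1 + 1) - (r + 1 + 1) = (r + 1 + 1) * (r + 1) := by
        rw [Nat.mul_succ]
        omega
      rw [this]
      nlinarith
  have h7 := Finset.sum_le_sum h6
  rw [← Finset.mul_sum, Finset.sum_add_distrib, ← Finset.mul_sum, ← Finset.card_filter] at h7
  have h8 : ∑ y ∈ src D, (univ.filter (fun q : V × V => R2l G D (y, q))).card ≤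
      (univ.filter (R2l G D)).card := by
    rw [Finset.card_filter (R2l G D), Fintype.sum_prod_type]
    simp only [← Finset.card_filter]
    exact Finset.sum_le_sum_of_subset (Finset.subset_univ _)
  have h9 := Finset.card_filter_add_card_filter_not (s := src D) (fun x => IsLeaf G x)
  rw [h3, h5] at h2
  unfold numLeaves
  omega

open Classical in
theorem leaf_down {G : SimpleGraph V} {D : V → V → Bool} (h : IsOrient G D) :
    2 * (univ.filter (P1l G D)).card + (univ.filter (S2l G D)).card ≤ 3 * (src D).card := by
  have h1 : ∀ y ∈ (univ : Finset V), 2 * (univ.filter (fun v => P1l G D (v, y))).card +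
      (univ.filter (fun q : V × V => S2l G D (y, q))).card ≤
      3 * ((src D).filter (fun v => IsLeaf G v ∧ D v y = true)).card := by
    intro y _
    have e1 : (univ.filter (fun v => P1l G D (v, y))).card ≤
        ((src D).filter (fun v => IsLeaf G v ∧ D v y = true)).card := by
      apply Finset.card_le_card
      intro v hv
      rw [Finset.mem_filter] at hv ⊢
      exact ⟨(mem_src _ _).2 hv.2.1.1, hv.2.2, hv.2.1.2.1⟩
    by_cases h3 : ∃ q : V × V, S2l G D (y, q)
    · obtain ⟨⟨v, m⟩, hq, hlv, hlm⟩ := h3
      have e2 : (univ.filter (fun q : V × V => S2l G D (y, q))) ⊆ {(v, m), (m, v)} := by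
        rintro ⟨a, b⟩ hab
        rw [Finset.mem_filter] at hab
        obtain ⟨_, ⟨_, _, a1, a2, a3, a4⟩, _⟩ := hab
        obtain ⟨_, _, b1, b2, b3, b4⟩ := hq
        simp only at a1 a2 a3 b1 b2 b3 b4
        have c1 := b4 a a2
        have c2 := b4 b a3
        simp only [Finset.mem_insert, Finset.mem_singleton, Prod.mk.injEq]
        grind
      have e3 := Finset.card_le_card e2
      have e4 : ({(v, m), (m, v)} : Finset (V × V)).card ≤ 2 := Finset.card_le_two
      have e5 : (univ.filter (fun v => P1l G D (v, y))) ⊆ {v, m} := by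
        intro u hu
        rw [Finset.mem_filter] at hu
        have := hq.2.2.2.2.2 u hu.2.1.2.1
        simpa using this
      have e6 := (Finset.card_le_card e5).trans (Finset.card_le_two (a := v) (b := m))
      have e7 : ({v, m} : Finset V) ⊆ (src D).filter (fun v => IsLeaf G v ∧ D v y = true) := by
        intro u hu
        obtain ⟨b5, b6, b1, b2, b3, b4⟩ := hq
        simp only at b5 b6 b1 b2 b3 b4
        rw [Finset.mem_insert, Finset.mem_singleton] at hu
        rw [Finset.mem_filter]
        rcases hu with rfl | rfl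
        · exact ⟨(mem_src _ _).2 b5, hlv, b2⟩
        · exact ⟨(mem_src _ _).2 b6, hlm, b3⟩
      have e8 := Finset.card_le_card e7
      rw [Finset.card_pair hq.2.2.1] at e8
      omega
    · have e2 : (univ.filter (fun q : V × V => S2l G D (y, q))).card = 0 := by
        rw [Finset.card_eq_zero, Finset.filter_eq_empty_iff]
        exact fun q _ hq => h3 ⟨q, hq⟩
      omega
  have h2 := Finset.sum_le_sum h1
  rw [Finset.sum_add_distrib, ← Finset.mul_sum, ← Finset.mul_sum] at h2
  have h4 : ∑ y, (univ.filter (fun v => P1l G D (v, y))).card = (univ.filter (P1l G D)).card := by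
    rw [Finset.card_filter (P1l G D), Fintype.sum_prod_type_right]
    simp only [← Finset.card_filter]
  have h5 : ∑ y, (univ.filter (fun q : V × V => S2l G D (y, q))).card =
      (univ.filter (S2l G D)).card := by
    rw [Finset.card_filter (S2l G D), Fintype.sum_prod_type]
    simp only [← Finset.card_filter]
  have h6 : ∑ y, ((src D).filter (fun v => IsLeaf G v ∧ D v y = true)).card ≤ (src D).card := by
    simp only [Finset.card_filter]
    rw [Finset.sum_comm]
    simp only [← Finset.card_filter]
    refine (Finset.sum_le_card_nsmul _ _ 1 ?_).trans (by simp)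
    intro v _
    rw [Finset.card_le_one]
    intro a ha b hb
    obtain ⟨⟨z, hz⟩, ha2⟩ := (Finset.mem_filter.1 ha).2
    obtain ⟨_, hb2⟩ := (Finset.mem_filter.1 hb).2
    rw [(hz a).1 (h.1 _ _ ha2), (hz b).1 (h.1 _ _ hb2)]
  rw [h4, h5] at h2
  omega

open Classical in
theorem leaf_send {G : SimpleGraph V} (hG : G.Connected) (hn : 3 ≤ Fintype.card V)
    {D : V → V → Bool} (h : IsOrient G D) :
    (src D).card + numLeaves G ≤ (univ.filter (P1l G D)).card + Fintype.card V := by
  have h1 : ∀ v ∈ src D, 1 ≤ (univ.filter (fun y => P1l G D (v, y))).card +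
      (if ¬ IsLeaf G v then 1 else 0) +
      ((univ.filter (fun y => ¬ IsLeaf G y)).filter (fun y => y ∈ Priv D v)).card := by
    intro v hv
    rw [mem_src] at hv
    by_cases hl : IsLeaf G v
    · obtain ⟨y, hy⟩ := hl
      have hadj : G.Adj v y := (hy y).2 rfl
      have hvy : D v y = true := (h.2 v y hadj).2 (hv y)
      have hyl : ¬ IsLeaf G y := fun hyl => leaf_leaf hG hn ⟨y, hy⟩ hyl hadj
      by_cases hp : ∃ u, u ≠ v ∧ D u y = true
      · have : 0 < (univ.filter (fun y => P1l G D (v, y))).card :=
          Finset.card_pos.2 ⟨y, Finset.mem_filter.2 ⟨Finset.mem_univ _, ⟨hv, hvy, hp⟩, y, hy⟩⟩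
        omega
      · have : 0 < ((univ.filter (fun y => ¬ IsLeaf G y)).filter
            (fun y => y ∈ Priv D v)).card := by
          refine Finset.card_pos.2 ⟨y, Finset.mem_filter.2
            ⟨Finset.mem_filter.2 ⟨Finset.mem_univ _, hyl⟩, hvy, fun u hu => ?_⟩⟩
          by_contra hc
          exact hp ⟨u, hc, hu⟩
        omega
    · rw [if_pos hl]
      omega
  have h2 := Finset.sum_le_sum h1
  rw [Finset.sum_const, smul_eq_mul, Finset.sum_add_distrib, Finset.sum_add_distrib,
    ← Finset.card_filter] at h2
  have h3 : ∑ v ∈ src D, (univ.filter (fun y => P1l G D (v, y))).card ≤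
      (univ.filter (P1l G D)).card := by
    rw [Finset.card_filter (P1l G D), Fintype.sum_prod_type]
    simp only [← Finset.card_filter]
    exact Finset.sum_le_sum_of_subset (Finset.subset_univ _)
  have h5 : ∑ v ∈ src D, ((univ.filter (fun y => ¬ IsLeaf G y)).filter
      (fun y => y ∈ Priv D v)).card =
      ∑ y ∈ univ.filter (fun y => ¬ IsLeaf G y), ((src D).filter (fun v => y ∈ Priv D v)).card := by
    simp only [Finset.card_filter (s := src D),
      Finset.card_filter (s := univ.filter (fun x => ¬ IsLeaf G x))]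
    rw [Finset.sum_comm]
  have h6 : ∀ y ∈ univ.filter (fun y => ¬ IsLeaf G y),
      ((src D).filter (fun v => y ∈ Priv D v)).card ≤ if y ∉ src D then 1 else 0 := by
    intro y _
    by_cases hy : y ∈ src D
    · rw [if_neg (by simpa using hy), Nat.le_zero, Finset.card_eq_zero,
        Finset.filter_eq_empty_iff]
      rintro v _ ⟨h7, _⟩
      rw [mem_src] at hy
      rw [hy v] at h7; exact absurd h7 (by simp)
    · rw [if_pos hy, Finset.card_le_one]
      intro a ha b hb
      obtain ⟨_, ha1, ha2⟩ := Finset.mem_filter.1 ha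
      obtain ⟨_, hb1, hb2⟩ := Finset.mem_filter.1 hb
      exact hb2 a ha1
  have h7 := Finset.sum_le_sum h6
  rw [← Finset.card_filter] at h7
  have h8 : ((src D).filter (fun v => ¬ IsLeaf G v)).card =
      ((univ.filter (fun y => ¬ IsLeaf G y)).filter (fun y => y ∈ src D)).card := by
    congr 1; ext x; simp [and_comm]
  have h9 := Finset.card_filter_add_card_filter_not
    (s := univ.filter (fun y => ¬ IsLeaf G y)) (fun y => y ∈ src D)
  have h10 := Finset.card_filter_add_card_filter_not (s := (univ : Finset V))
    (fun x => IsLeaf G x)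
  rw [Finset.card_univ] at h10
  rw [h5, h8] at h2
  unfold numLeaves
  omega

open Classical in
theorem leaf_receive {G : SimpleGraph V} {D : V → V → Bool} :
    (univ.filter (Q1l G D)).card + (src D).card ≤ Fintype.card V := by
  have h1 : (univ.filter (Q1l G D)).card ≤ ((src D)ᶜ).card := by
    apply Finset.card_le_card_of_injOn (fun p => p.1)
    · intro p hp
      have hp' := (Finset.mem_filter.1 (Finset.mem_coe.1 hp)).2
      obtain ⟨⟨h1, h2, u, h3⟩, _⟩ := hp'
      refine Finset.mem_coe.2 (Finset.mem_compl.2 ?_)
      intro hc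
      rw [mem_src] at hc
      rw [hc _] at h1; exact absurd h1 (by simp)
    · intro p hp q hq hpq
      have hp' := (Finset.mem_filter.1 (Finset.mem_coe.1 hp)).2.1
      have hq' := (Finset.mem_filter.1 (Finset.mem_coe.1 hq)).2.1
      obtain ⟨p1, p2⟩ := p
      obtain ⟨q1, q2⟩ := q
      simp only at hpq
      subst hpq
      have := hq'.2.1 _ hp'.1
      simp only at this
      rw [this]
  rw [Finset.card_compl] at h1
  have := Finset.card_le_univ (src D)
  omega

theorem ineq4 {G : SimpleGraph V} (hG : G.Connected) (hn : 3 ≤ Fintype.card V) (j : ℕ) :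
    2 * numLeaves G * (lev G j).card ≤
      2 * j * (lev G j).card + 3 * (j + 1) * (lev G (j + 1)).card := by
  classical
  have h1 := Finset.sum_le_sum (s := lev G j) (fun D hD => leaf_up hG hn (mem_lev.1 hD).1)
  have h2 := Finset.sum_le_sum (s := lev G (j + 1)) (fun D hD => leaf_down (mem_lev.1 hD).1)
  have h3 := dl2 G j
  have h4 := dl3 G j
  have e1 : ∑ D ∈ lev G j, 2 * (src D).card = (lev G j).card * (2 * j) := by
    rw [Finset.sum_congr rfl (fun D hD => by rw [(mem_lev.1 hD).2]), Finset.sum_const,
      smul_eq_mul]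
  have e2 : ∑ D ∈ lev G (j + 1), 3 * (src D).card = (lev G (j + 1)).card * (3 * (j + 1)) := by
    rw [Finset.sum_congr rfl (fun D hD => by rw [(mem_lev.1 hD).2]), Finset.sum_const,
      smul_eq_mul]
  rw [Finset.sum_add_distrib, Finset.sum_add_distrib, e1, Finset.sum_const, smul_eq_mul,
    ← Finset.mul_sum] at h1
  rw [e2, Finset.sum_add_distrib, ← Finset.mul_sum] at h2
  nlinarith

theorem ineq5 {G : SimpleGraph V} (hG : G.Connected) (hn : 3 ≤ Fintype.card V) (j : ℕ) :
    (j + 1 + numLeaves G) * (lev G (j + 1)).card + j * (lev G j).card ≤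
      Fintype.card V * (lev G (j + 1)).card + Fintype.card V * (lev G j).card := by
  classical
  have h1 := Finset.sum_le_sum (s := lev G (j + 1)) (fun D hD =>
    leaf_send hG hn (mem_lev.1 hD).1)
  have h2 := Finset.sum_le_sum (s := lev G j) (fun D _ => leaf_receive (G := G) (D := D))
  have h3 := dl1 G j
  have e1 : ∑ D ∈ lev G (j + 1), (src D).card = (lev G (j + 1)).card * (j + 1) := by
    rw [Finset.sum_congr rfl (fun D hD => by rw [(mem_lev.1 hD).2]), Finset.sum_const,
      smul_eq_mul]
  have e2 : ∑ D ∈ lev G j, (src D).card = (lev G j).card * j := by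
    rw [Finset.sum_congr rfl (fun D hD => by rw [(mem_lev.1 hD).2]), Finset.sum_const,
      smul_eq_mul]
  rw [Finset.sum_add_distrib, e1, Finset.sum_const, smul_eq_mul, Finset.sum_add_distrib,
    Finset.sum_const, smul_eq_mul] at h1
  rw [Finset.sum_add_distrib, e2, Finset.sum_const, smul_eq_mul] at h2
  nlinarith

/-- **Both ends of the distribution of the number of sources.**  Let `G` be a tree with `n ≥ 3`
vertices, `ℓ` leaves and independence number `α`, and let `p_j` be the number of orientations of
`G` with exactly `j` vertices of in-degree `0` (that is, `2 ^ (n - 1) Pr [Z_G = j]`). Then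
* `p_j ≤ p_{j+1}` if `6 j ≤ n + 1` or `5 j + 3 ≤ 2 ℓ`;
* `p_{j+1} ≤ p_j` if `n + 6 α ≤ 9 j + 3` (in particular if `8 α ≤ 9 j + 3`, as `n ≤ 2 α`), or
  `n + 2 α ≤ 4 j + 2`, or `2 n ≤ 2 j + 1 + ℓ`. -/
theorem result (G : SimpleGraph V) (hG : G.IsTree) (hn : 3 ≤ Fintype.card V) (j : ℕ) :
    (6 * j ≤ Fintype.card V + 1 ∨ 5 * j + 3 ≤ 2 * numLeaves G →
      (lev G j).card ≤ (lev G (j + 1)).card) ∧
    (Fintype.card V + 6 * G.indepNum ≤ 9 * j + 3 ∨ 8 * G.indepNum ≤ 9 * j + 3 ∨
      Fintype.card V + 2 * G.indepNum ≤ 4 * j + 2 ∨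
      2 * Fintype.card V ≤ 2 * j + 1 + numLeaves G →
      (lev G (j + 1)).card ≤ (lev G j).card) := by
  have hB := hG.colorable_two
  have hC := hG.connected
  have hcard := card_le_two_indep hB
  have tail1 : Fintype.card V + 6 * G.indepNum ≤ 9 * j + 3 →
      (lev G (j + 1)).card ≤ (lev G j).card := by
    intro h
    rcases Nat.lt_or_ge G.indepNum (j + 1) with hj | hj
    · rw [lev_empty hB hj]; exact Nat.zero_le _
    · have h1 := ineq2 hC hB hn j
      obtain ⟨c, hc⟩ : ∃ c, 3 * (j + 1) = Fintype.card V + c := ⟨3 * (j + 1) - Fintype.card V, by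
        omega⟩
      obtain ⟨d, hd⟩ : ∃ d, G.indepNum = j + 1 + d := ⟨G.indepNum - (j + 1), by omega⟩
      have h2 : 6 * (d + 1) ≤ c := by omega
      rw [hc, hd] at h1
      have h3 : c * (lev G (j + 1)).card ≤ 6 * (d + 1) * (lev G j).card := by nlinarith
      have h4 : c * (lev G (j + 1)).card ≤ c * (lev G j).card :=
        h3.trans (Nat.mul_le_mul_right _ h2)
      exact Nat.le_of_mul_le_mul_left h4 (by omega)
  refine ⟨fun h => ?_, fun h => ?_⟩
  · rcases h with h | h
    · have h1 := ineq3 hG j
      rcases Nat.eq_zero_or_pos j with rfl | hj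
      · have : (Fintype.card V + 1) * (lev G 0).card = 0 := by
          have := h1
          simp only [Nat.mul_zero, Nat.zero_mul, Nat.add_zero, Nat.le_zero] at this
          exact this
        rcases Nat.mul_eq_zero.1 this with h2 | h2
        · omega
        · rw [h2]; exact Nat.zero_le _
      · obtain ⟨c, hc⟩ : ∃ c, Fintype.card V + 1 = 6 * j + c := ⟨Fintype.card V + 1 - 6 * j, by
          omega⟩
        rw [hc] at h1
        have h2 : 3 * j * (lev G j).card ≤ 3 * j * (lev G (j + 1)).card := by nlinarith
        exact Nat.le_of_mul_le_mul_left h2 (by omega)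
    · have h1 := ineq4 hC hn j
      obtain ⟨c, hc⟩ : ∃ c, 2 * numLeaves G = 5 * j + 3 + c := ⟨2 * numLeaves G - (5 * j + 3), by
        omega⟩
      rw [hc] at h1
      have h2 : 3 * (j + 1) * (lev G j).card ≤ 3 * (j + 1) * (lev G (j + 1)).card := by nlinarith
      exact Nat.le_of_mul_le_mul_left h2 (by omega)
  · rcases h with h | h | h | h
    · exact tail1 h
    · exact tail1 (by omega)
    · rcases Nat.lt_or_ge G.indepNum (j + 1) with hj | hj
      · rw [lev_empty hB hj]; exact Nat.zero_le _
      · have h1 := ineq1 hC hB hn j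
        obtain ⟨c, hc⟩ : ∃ c, 2 * (j + 1) = Fintype.card V + c :=
          ⟨2 * (j + 1) - Fintype.card V, by omega⟩
        obtain ⟨d, hd⟩ : ∃ d, G.indepNum = j + 1 + d := ⟨G.indepNum - (j + 1), by omega⟩
        have h2 : 2 * (d + 1) ≤ c := by omega
        rw [hc, hd] at h1
        have h3 : c * (lev G (j + 1)).card ≤ 2 * (d + 1) * (lev G j).card := by nlinarith
        have h4 : c * (lev G (j + 1)).card ≤ c * (lev G j).card :=
          h3.trans (Nat.mul_le_mul_right _ h2)
        exact Nat.le_of_mul_le_mul_left h4 (by omega)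
    · rcases Nat.lt_or_ge G.indepNum (j + 1) with hj | hj
      · rw [lev_empty hB hj]; exact Nat.zero_le _
      · have h1 := ineq5 hC hn j
        have hα : G.indepNum ≤ Fintype.card V := by
          obtain ⟨s, hs⟩ := G.exists_isNIndepSet_indepNum
          rw [← hs.card_eq]
          exact Finset.card_le_univ s
        obtain ⟨d, hd⟩ : ∃ d, Fintype.card V = j + 1 + d := ⟨Fintype.card V - (j + 1), by omega⟩
        obtain ⟨c, hc⟩ : ∃ c, j + 1 + numLeaves G = Fintype.card V + (d + 1) + c :=
          ⟨j + 1 + numLeaves G - (Fintype.card V + (d + 1)), by omega⟩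
        rw [hc] at h1
        have h3 : (d + 1) * (lev G (j + 1)).card ≤ (d + 1) * (lev G j).card := by
          rw [hd] at h1
          nlinarith
        exact Nat.le_of_mul_le_mul_left h3 (by omega)

end Pool.Agent.Results.MP_80a94d_pr.BothEnds
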